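import Pool.Agent.PCO.StmtsB

/-!
# PCO CLM (helper80): two boxes with the same apex, a common boundary ray and a large face
-/

set_option autoImplicit false

open Matrix Filter Topology

namespace Pool.Agent.PCO.H80

open Pool.Agent.PFS Pool.Agent.PFJ Pool.Agent.PCO

theorem clm (hbf1 : Bf1Stmt) (hbf2 : Bf2Stmt) (hbf3 : Bf3Stmt) (hbxm : BxmStmt)
    (hprj : PrjStmt) (hprf : PrfStmt) (hcpf : CpfStmt) : ClmStmt := by
  intro n C Γ d hH U U' v a hB hB' hd hd' ha ha' hy
  obtain ⟨y, hyF, hyn⟩ := hy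
  have hCC : CC C Γ := hH.toCC
  have hP : PCone C := hCC.toPCone
  obtain ⟨hvL, hvc, hv0, hvU, -, hone, ⟨f0, hf0⟩, -, -⟩ := hbf1 n C Γ hCC hH.maxc U v hB
  obtain ⟨-, -, -, -, -, -, -, hlam', -⟩ := hbf1 n C Γ hCC hH.maxc U' v hB'
  obtain ⟨hpes, -, -, hout, -, -, -⟩ := hbf2 n C Γ hCC hH.maxc U v hB
  obtain ⟨-, -, hspan', -, -, -, -⟩ := hbf2 n C Γ hCC hH.maxc U' v hB'
  obtain ⟨-, ⟨ν, hν⟩, hνC, -, -⟩ := hbf3 n C Γ hCC hH.maxc U v hB
  obtain ⟨-, ⟨ν', hν'⟩, -, -, -⟩ := hbf3 n C Γ hCC hH.maxc U' v hB'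
  obtain ⟨-, -, -, -, -, hmaxU, -⟩ := hbxm n C Γ d hH U v hB hd
  obtain ⟨p, hp⟩ := hprj n C Γ d hH U v hB hd
  obtain ⟨hpv, -, -, hplane, hpray, -, -, -⟩ := hprf n C Γ d hH U v hB hd p hp
  obtain ⟨hc1, hc2, -⟩ := hcpf n C Γ d hH U v a hB hd ha
  obtain ⟨haU, hac, ha0, hau⟩ := ha
  have haU' : a ∈ U' := ha'.1
  -- the element `y`
  obtain ⟨ε, hε, h1, h2⟩ := hyF
  have havc : a + v ∈ closure C := hP.cl_add hac hvc
  have hyc : y ∈ closure C := by
    have h3 := hP.cl_add h2 (hP.cl_smul havc hε.le)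
    have h4 : y - ε • (a + v) + ε • (a + v) = y := by abel
    rwa [h4] at h3
  have hM : ε⁻¹ • (a + v) - y ∈ closure C := by
    have h3 := hP.cl_smul h1 (inv_pos.mpr hε).le
    have h4 : ε⁻¹ • (a + v - ε • y) = ε⁻¹ • (a + v) - y := by
      rw [smul_sub, smul_smul, inv_mul_cancel₀ hε.ne', one_smul]
    rwa [h4] at h3
  obtain ⟨κ, -, hκ⟩ := hpray a ⟨haU, hac, ha0, hau⟩ y hyc ε⁻¹ hM
  have hpa : p a = a := hp.idU a haU
  have hpz : p (y - κ • a) = 0 := by
    rw [map_sub, map_smul, hκ, hpa, sub_self]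
  have hind : Ind2 v (y - κ • a) := by
    intro α β hαβ
    by_cases hβ : β = 0
    · subst hβ
      rw [zero_smul, add_zero] at hαβ
      exact ⟨(smul_eq_zero.mp hαβ).resolve_right hv0, rfl⟩
    · exfalso
      apply hyn κ (-(α / β))
      have h5 : β • y = β • (κ • a + (-(α / β)) • v) := by
        have h6 : β • y = (α • v + β • (y - κ • a)) + β • (κ • a) - α • v := by
          rw [smul_sub]; abel
        rw [h6, hαβ, smul_add, smul_smul β (-(α / β)) v]
        have h7 : β * -(α / β) = -α := by field_simp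
        rw [h7, neg_smul, zero_add, sub_eq_add_neg]
      have h8 := congrArg (fun x => β⁻¹ • x) h5
      simpa only [smul_smul, inv_mul_cancel₀ hβ, one_smul] using h8
  -- functionals
  have hνa : ν a = 0 := hν.zero a haU
  have hν'a : ν' a = 0 := hν'.zero a haU'
  have hνy : ν y = ν' y := by
    have h3 := hc2 ν' ν hν'.pos hν.pos hν'a hνa v hvc y hyc 1 ε⁻¹
      (by rw [one_smul, add_sub_cancel_right]; exact hac) hM
    rw [hν'.one, hν.one, one_mul, mul_one] at h3
    exact h3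
  obtain ⟨c, hc, hcn⟩ := hout a 0
  have hac2 : Ind2 a c := by
    intro α β hαβ
    by_cases hβ : β = 0
    · subst hβ
      rw [zero_smul, add_zero] at hαβ
      exact ⟨(smul_eq_zero.mp hαβ).resolve_right ha0, rfl⟩
    · exfalso
      apply hcn (-(α / β)) 0
      have h5 : β • c = β • ((-(α / β)) • a + (0 : ℝ) • (0 : V n)) := by
        have h6 : β • c = (α • a + β • c) - α • a := by abel
        rw [h6, hαβ, smul_add, smul_smul β (-(α / β)) a]
        have h7 : β * -(α / β) = -α := by field_simp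
        rw [h7, neg_smul, zero_sub, smul_zero, smul_zero, add_zero]
      have h8 := congrArg (fun x => β⁻¹ • x) h5
      simpa only [smul_smul, inv_mul_cancel₀ hβ, one_smul] using h8
  obtain ⟨φ, hφC, hφc, hφm, -⟩ := Pool.Agent.PFS.H60.fun_ n C hP (Fin 3) ![a, c, v] 1
    (hpes a c ⟨haU, hac, ha0, hau⟩ hc hac2).1
  have hφa : φ a = 0 := hφm 0 (by decide)
  have hφv : φ v = 0 := hφm 2 (by decide)
  have hφy : φ y = 0 := by
    have h3 := hφc _ hM
    rw [map_sub, map_smul, map_add, hφa, hφv, add_zero, smul_zero, zero_sub] at h3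
    exact le_antisymm (by linarith) (hφc y hyc)
  have hφf0 : 0 < φ f0 := by
    have h3 := hφC _ ((hone f0 hf0.1 1).mpr ⟨hf0, one_pos⟩)
    rwa [map_add, map_smul, hφv, smul_zero, add_zero] at h3
  -- all elements of the cone of `U'` are in `U`
  have key : ∀ x ∈ U', x ∈ closure C → x ∈ U := by
    intro x hxU' hxc
    by_cases hx0 : x = 0
    · rw [hx0]; exact U.zero_mem
    obtain ⟨s, t, hst⟩ := hplane v (y - κ • a) hpv hpz hind x
    set f : V n := p x - (t * κ) • a with hf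
    have hfU : f ∈ U := U.sub_mem (hp.mem x) (U.smul_mem _ haU)
    have hx : x = f + s • v + t • y := by
      have h3 : f + s • v + t • y = p x + s • v + t • (y - κ • a) := by
        rw [hf, smul_sub, smul_smul]
        abel
      rw [h3]
      exact hst
    have hφf : φ f = φ x := by
      rw [hx]
      simp only [map_add, map_smul, hφv, hφy, smul_zero, add_zero]
    have h4 : 0 ≤ φ f := by rw [hφf]; exact hφc x hxc
    have h5 := hc1 φ ν' hφc hν'.pos hφa hν'a f0 hf0.1 f hfU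
    have h6 : 0 ≤ ν' f0 := hν'.pos f0 hf0.2.1
    have h7 : 0 ≤ ν' f := by
      by_contra hneg
      push Not at hneg
      have h8 : φ f0 * ν' f < 0 := mul_neg_of_pos_of_neg hφf0 hneg
      have h9 : 0 ≤ φ f * ν' f0 := mul_nonneg h4 h6
      linarith
    have h8 : ν' x = ν' f + s + t * ν' y := by
      rw [hx]
      simp only [map_add, map_smul, hν'.one, smul_eq_mul, mul_one]
    have h9 : ν x = s + t * ν y := by
      rw [hx]
      simp only [map_add, map_smul, hν.one, smul_eq_mul, mul_one, hν.zero f hfU, zero_add]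
    have h10 : ν' x = 0 := hν'.zero x hxU'
    have h11 : 0 ≤ ν x := hν.pos x hxc
    have h12 : ν x = 0 := by
      rw [hνy] at h9
      linarith
    have h13 : f0 + x ∉ C := by
      intro h14
      have h15 := hνC ν hν _ h14
      rw [map_add, h12, hν.zero f0 hf0.1, add_zero] at h15
      exact lt_irrefl _ h15
    exact hmaxU f0 hf0 x (hlam' x hxU' hxc hx0).1 h13
  have hle : U' ≤ U := hspan' U (fun e he => key e he.1 he.2.1)
  exact Submodule.eq_of_le_of_finrank_eq hle (by rw [hd, hd'])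

end Pool.Agent.PCO.H80
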